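import Mathlib
import Pool.Agent.Lib.helper23.RSEDef

set_option autoImplicit false

namespace Pool.Agent.Results.MP_88a444_an.Main

open Pool.Agent.Lib.helper23.RSE Filter Topology

universe u v

/-- Uniform convexity of a real space. -/
def UC (Y : Type v) [NormedAddCommGroup Y] : Prop :=
  ∀ ε : ℝ, 0 < ε → ∃ δ : ℝ, 0 < δ ∧ δ < 1 ∧ ∀ y1 y2 : Y, ‖y1‖ = 1 → ‖y2‖ = 1 →
    1 - δ < ‖y1 + y2‖ / 2 → ‖y1 - y2‖ < ε

/-- Complex uniform convexity. -/
def CUC (Y : Type v) [NormedAddCommGroup Y] [NormedSpace ℂ Y] : Prop :=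
  ∀ ε : ℝ, 0 < ε → ∃ δ : ℝ, 0 < δ ∧ ∀ y0 y1 : Y, (∀ w : ℂ, ‖w‖ = 1 → ‖y0 + w • y1‖ ≤ 1) →
    ε < ‖y1‖ → ‖y0‖ < 1 - δ

section
variable {𝕜 : Type} [RCLike 𝕜] {X : Type u} {Y : Type v} [NormedAddCommGroup X] [NormedSpace 𝕜 X]
  [NormedAddCommGroup Y] [NormedSpace 𝕜 Y]

theorem disc {p q : Y} (h : ∀ w : 𝕜, ‖w‖ = 1 → ‖p + w • q‖ ≤ 1) {w : 𝕜} (hw : ‖w‖ ≤ 1) :
    ‖p + w • q‖ ≤ 1 := by
  obtain ⟨c, hc, e⟩ := RCLike.exists_norm_mul_eq_self w
  have e2 : p + w • q = (((1 + ‖w‖) / 2 : ℝ) : 𝕜) • (p + c • q) +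
      (((1 - ‖w‖) / 2 : ℝ) : 𝕜) • (p + (-c) • q) := by
    conv_lhs => rw [← e]
    push_cast
    module
  rw [e2]
  refine (norm_add_le _ _).trans ?_
  rw [norm_smul, norm_smul, RCLike.norm_ofReal, RCLike.norm_ofReal, abs_of_nonneg (by positivity),
    abs_of_nonneg (by linarith)]
  nlinarith [h c hc, h (-c) (by simpa using hc), norm_nonneg w]

theorem basis (e : StrongDual 𝕜 X ≃ₗᵢ[𝕜] lp (fun _ : ℕ => 𝕜) 1) : ∃ f : ℕ → StrongDual 𝕜 X,
    (∀ n, ‖f n‖ = 1) ∧ (∀ n m, n ≠ m → ∀ a b : 𝕜, ‖a • f n + b • f m‖ = ‖a‖ + ‖b‖) ∧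
    ∀ x, ∃ n, ‖f n x‖ = ‖x‖ := by
  have h1 : ∀ n, ‖e.symm (lp.single 1 n 1)‖ = 1 := fun n => by
    rw [e.symm.norm_map, lp.norm_single one_pos, norm_one]
  refine ⟨fun n => e.symm (lp.single 1 n 1), h1, fun n m h a b => ?_, fun x => ?_⟩
  · have := lp.norm_sum_single (E := fun _ : ℕ => 𝕜) (p := 1) (by simp)
      (fun i => if i = n then a else b) {n, m}
    rw [← map_smul, ← map_smul, ← map_add, e.symm.norm_map, ← lp.single_smul, ← lp.single_smul]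
    simpa [Finset.sum_pair h, h.symm] using this
  · by_contra hn
    push Not at hn
    have h2 : ∀ n, ‖e.symm (lp.single 1 n 1) x‖ < ‖x‖ := fun n => lt_of_le_of_ne
      (by simpa [h1] using (e.symm (lp.single 1 n 1)).le_opNorm x) (hn n)
    obtain ⟨g, g1, g2⟩ := exists_dual_vector 𝕜 x ((norm_nonneg _).trans_lt (h2 0)).ne'
    have s1 : HasSum (fun n => ‖e g n‖) 1 := by
      simpa [g1] using lp.hasSum_norm (p := 1) (by simp) (e g)
    have s2 : HasSum (fun n => e g n * e.symm (lp.single 1 n 1) x) (g x) := by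
      have := (lp.hasSum_single ENNReal.one_ne_top (e g)).mapL
        (ContinuousLinearMap.apply 𝕜 𝕜 x ∘L e.symm.toContinuousLinearEquiv.toContinuousLinearMap)
      have e1 : ∀ n, e g n * e.symm (lp.single 1 n 1) x = e.symm (lp.single 1 n (e g n)) x :=
        fun n => by
          rw [← smul_eq_mul, ← ContinuousLinearMap.smul_apply, ← map_smul, ← lp.single_smul]
          simp
      simpa [e1] using this
    obtain ⟨k, hk⟩ : ∃ k, e g k ≠ 0 := by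
      by_contra hc
      push Not at hc
      simp only [hc, norm_zero] at s1
      simpa using s1.unique hasSum_zero
    have s3 : Summable fun n => ‖e g n * e.symm (lp.single 1 n 1) x‖ := s2.summable.norm
    have := hasSum_lt (i := k) (fun n => by
      rw [norm_mul]; exact mul_le_mul_of_nonneg_left (h2 n).le (norm_nonneg _))
      (by rw [norm_mul]; exact mul_lt_mul_of_pos_left (h2 k) (norm_pos_iff.2 hk))
      s3.hasSum (s1.mul_right ‖x‖)
    have h3 := norm_tsum_le_tsum_norm s3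
    rw [s2.tsum_eq, g2, RCLike.norm_ofReal, abs_norm] at h3
    linarith

theorem peak [CompleteSpace X] {f : ℕ → StrongDual 𝕜 X} (h1 : ∀ n, ‖f n‖ = 1)
    (h2 : ∀ n m, n ≠ m → ∀ a b : 𝕜, ‖a • f n + b • f m‖ = ‖a‖ + ‖b‖)
    (h3 : ∀ x, ∃ n, ‖f n x‖ = ‖x‖) :
    ∃ (j : ℕ) (x : X) (θ : ℝ), θ < 1 ∧ ‖x‖ = 1 ∧ ‖f j x‖ = 1 ∧ ∀ n, n ≠ j → ‖f n x‖ ≤ θ := by
  obtain ⟨j, hj⟩ := nonempty_interior_of_iUnion_of_closed (f := fun n => {x | ‖f n x‖ = ‖x‖})
    (fun n => isClosed_eq (f n).continuous.norm continuous_norm)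
    (Set.eq_univ_of_forall fun x => Set.mem_iUnion.2 (h3 x))
  have : Nontrivial X := by
    obtain ⟨v, -, hv⟩ := (f 0).exists_lt_apply_of_lt_opNorm (r := 0) (by simp [h1])
    exact ⟨v, 0, by rintro rfl; simp at hv⟩
  have := Module.punctured_nhds_neBot 𝕜 X 0
  obtain ⟨x, hx0, hx⟩ := (dense_compl_singleton (0 : X)).exists_mem_open isOpen_interior hj
  have x0 : 0 < ‖x‖ := norm_pos_iff.2 hx0
  obtain ⟨r, r0, hr⟩ := Metric.mem_nhds_iff.1 (mem_interior_iff_mem_nhds.1 hx)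
  have xj : ‖f j x‖ = ‖x‖ := hr (Metric.mem_ball_self r0)
  obtain ⟨t, t0, t1, t2⟩ : ∃ t : ℝ, 0 < t ∧ t ≤ r ∧ t ≤ ‖x‖ :=
    ⟨min r ‖x‖, by positivity, min_le_left _ _, min_le_right _ _⟩
  have key : ∀ n, n ≠ j → ‖f n x‖ ≤ ‖x‖ - t / 2 := fun n hn => by
    obtain ⟨a, a1, a2⟩ := RCLike.exists_norm_eq_mul_self (f n x)
    obtain ⟨b, b1, b2⟩ := RCLike.exists_norm_eq_mul_self (f j x)
    obtain ⟨v, v1, v2⟩ := (a • f n + (-b) • f j).exists_lt_apply_of_lt_opNorm (r := 3 / 2)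
      (by rw [h2 n j hn, norm_neg, a1, b1]; norm_num)
    obtain ⟨c, c1, c2⟩ := RCLike.exists_norm_eq_mul_self ((a • f n + (-b) • f j) v)
    have v3 : ‖c • v‖ < 1 := by rwa [norm_smul, c1, one_mul]
    have c3 : 3 / 2 < RCLike.re (a * f n (c • v)) - RCLike.re (b * f j (c • v)) := by
      have : a * f n (c • v) - b * f j (c • v) = c * (a • f n + (-b) • f j) v := by
        simp
        ring
      rwa [← map_sub, this, ← c2, RCLike.ofReal_re]
    have bd : ∀ (d : 𝕜) (m : ℕ), ‖d‖ = 1 → ‖d * f m (c • v)‖ ≤ 1 := fun d m hd => by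
      rw [norm_mul, hd, one_mul, ← h1 m]; exact (f m).unit_le_opNorm _ v3.le
    have p1 := (abs_le.1 ((RCLike.abs_re_le_norm _).trans (bd a n a1))).2
    have p2 := (abs_le.1 ((RCLike.abs_re_le_norm _).trans (bd b j b1))).1
    have q0 : ‖f j (x + (t : 𝕜) • c • v)‖ = ‖x + (t : 𝕜) • c • v‖ := hr (by
      rw [Metric.mem_ball, dist_eq_norm, add_sub_cancel_left, norm_smul, RCLike.norm_ofReal,
        abs_of_pos t0]
      nlinarith)
    have q1 : ‖f n x‖ + t * RCLike.re (a * f n (c • v)) ≤ ‖x + (t : 𝕜) • c • v‖ := by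
      have : a * f n (x + (t : 𝕜) • c • v) = ‖f n x‖ + (t : 𝕜) * (a * f n (c • v)) := by
        rw [a2, map_add, map_smul, smul_eq_mul]; ring
      have h := (RCLike.re_le_norm (a * f n (x + (t : 𝕜) • c • v)))
      rw [norm_mul, a1, one_mul, this, map_add, RCLike.ofReal_re, RCLike.re_ofReal_mul] at h
      exact h.trans (by simpa [h1] using (f n).le_opNorm (x + (t : 𝕜) • c • v))
    have q2 : ‖x + (t : 𝕜) • c • v‖ ≤ ‖x‖ := by
      have : b * f j (x + (t : 𝕜) • c • v) = ‖x‖ + (t : 𝕜) * (b * f j (c • v)) := by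
        rw [← xj, b2, map_add, map_smul, smul_eq_mul]; ring
      rw [← q0, ← one_mul ‖f j _‖, ← b1, ← norm_mul, this]
      have h := bd b j b1
      generalize b * f j (c • v) = z at *
      have h' : ‖z‖ ^ 2 ≤ 1 := pow_le_one₀ (norm_nonneg _) h
      refine (sq_le_sq₀ (norm_nonneg _) x0.le).1 ?_
      rw [RCLike.norm_sq_eq_def] at h' ⊢
      simp only [map_add, RCLike.ofReal_re, RCLike.re_ofReal_mul, RCLike.ofReal_im,
        RCLike.im_ofReal_mul, zero_add]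
      nlinarith [mul_pos t0 x0, mul_le_mul_of_nonneg_left h' (mul_pos t0 t0).le,
        mul_le_mul_of_nonneg_left t2 t0.le]
    nlinarith
  refine ⟨j, ((‖x‖⁻¹ : ℝ) : 𝕜) • x, 1 - t / 2 / ‖x‖, sub_lt_self _ (by positivity),
    by simp [norm_smul, x0.ne'], by simp [xj, x0.ne'], fun n hn => ?_⟩
  rw [map_smul, norm_smul, RCLike.norm_ofReal, abs_of_pos (inv_pos.2 x0), inv_mul_le_iff₀ x0,
    mul_sub, mul_one, mul_div_cancel₀ _ x0.ne']
  exact key n hn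

theorem main [CompleteSpace X] (e : StrongDual 𝕜 X ≃ₗᵢ[𝕜] lp (fun _ : ℕ => 𝕜) 1)
    (h : BPB (fun T : X →L[𝕜] Y => IsCompactOperator T) IsRSE) {ε : ℝ} (hε : 0 < ε) :
    ∃ δ : ℝ, 0 < δ ∧ δ < 1 ∧ ∀ y0 y1 : Y, (∀ w : 𝕜, ‖w‖ = 1 → ‖y0 + w • y1‖ ≤ 1) →
      1 - δ ≤ ‖y0‖ → ‖y1‖ < ε := by
  obtain ⟨f, h1, h2, h3⟩ := basis e
  obtain ⟨j, x, θ, t1, x1, x2, x3⟩ := peak h1 h2 h3
  have fb : ∀ n v, ‖f n v‖ ≤ ‖v‖ := fun n v => by simpa [h1] using (f n).le_opNorm v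
  obtain ⟨u, u1, u2⟩ : ∃ u, f j u = 0 ∧ f (j + 1) u = 1 := by
    obtain ⟨w, w1, w2⟩ := (f (j + 1)).exists_lt_apply_of_lt_opNorm (r := θ) (by rwa [h1])
    have x0 : f j x ≠ 0 := norm_ne_zero_iff.1 (by simp [x2])
    have : f (j + 1) (w - (f j w / f j x) • x) ≠ 0 := fun hh => by
      rw [map_sub, map_smul, sub_eq_zero] at hh
      rw [hh, norm_smul, norm_div, x2, div_one] at w2
      nlinarith [fb j w, x3 (j + 1) (by simp), norm_nonneg (f (j + 1) x), norm_nonneg (f j w)]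
    exact ⟨(f (j + 1) (w - (f j w / f j x) • x))⁻¹ • (w - (f j w / f j x) • x), by simp [x0],
      by rw [map_smul, smul_eq_mul, inv_mul_cancel₀ this]⟩
  have u0 := norm_nonneg u
  obtain ⟨t, t0, t2, t3, t4⟩ : ∃ t : ℝ, 0 < t ∧ θ + t + t * ‖u‖ ≤ 1 ∧ t * ‖u‖ < ε ∧ t ≤ 1 := by
    have hp : 0 < ‖u‖ + 1 := by positivity
    have := sub_pos.2 t1
    have a1 := min_le_left (min (1 - θ) ε) 1
    have a2 := min_le_right (min (1 - θ) ε) 1
    have a3 := min_le_left (1 - θ) ε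
    have a4 := min_le_right (1 - θ) ε
    have a5 : 0 < min (min (1 - θ) ε) 1 / (‖u‖ + 1) := by positivity
    have a6 := mul_div_cancel₀ (min (min (1 - θ) ε) 1) hp.ne'
    exact ⟨_, a5, by nlinarith, by nlinarith, by nlinarith⟩
  obtain ⟨η, e0, e1, H⟩ := h t t0
  refine ⟨η / 4, by positivity, by linarith, fun y0 y1 hy hy0 => ?_⟩
  have two : ∀ a b : 𝕜, ‖a‖ ≤ 1 → ‖b‖ ≤ 1 → ‖a • y0 + b • y1‖ ≤ 1 := fun a b ha hb => by
    rw [add_comm]
    refine disc (fun w hw => ?_) ha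
    have w0 : w ≠ 0 := norm_ne_zero_iff.1 (by simp [hw])
    have : b • y1 + w • y0 = w • (y0 + (b / w) • y1) := by
      rw [smul_add, smul_smul, mul_div_cancel₀ _ w0, add_comm]
    rw [this, norm_smul, hw, one_mul]
    exact disc hy (by rwa [norm_div, hw, div_one])
  let T : X →L[𝕜] Y := (f j).smulRight y0 + (f (j + 1)).smulRight y1
  have n1 : ‖T‖ ≤ 1 := ContinuousLinearMap.opNorm_le_of_unit_norm zero_le_one fun v hv =>
    two _ _ (hv ▸ fb _ v) (hv ▸ fb _ v)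
  have n2 : 1 - η / 2 ≤ ‖T x‖ := by
    have a1 := two (f j x) (-f (j + 1) x) x2.le (by simpa [x1] using fb (j + 1) x)
    have a2 := norm_add_le (T x) (f j x • y0 + (-f (j + 1) x) • y1)
    have a3 : T x + (f j x • y0 + (-f (j + 1) x) • y1) = (2 : 𝕜) • f j x • y0 := by
      simp [T]
      module
    rw [a3, norm_smul, norm_smul, x2, RCLike.norm_two] at a2
    linarith
  have n3 : ‖T x‖ ≤ ‖T‖ := T.unit_le_opNorm x x1.le
  have n0 : 0 < ‖T‖ := by linarith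
  have i1 : 1 ≤ ‖T‖⁻¹ := (one_le_inv₀ n0).2 n1
  have cp : ∀ (g : StrongDual 𝕜 X) (y : Y), IsCompactOperator (g.smulRight y) := fun g y =>
    (isCompactOperator_of_locallyCompactSpace_dom g).clm_comp
      (ContinuousLinearMap.toSpanSingleton 𝕜 y)
  have nT : ∀ v, ‖(((‖T‖⁻¹ : ℝ) : 𝕜) • T) v‖ = ‖T‖⁻¹ * ‖T v‖ := fun v => by simp [norm_smul]
  obtain ⟨S, -, ⟨x', -, hS⟩, x0, hx0, s1, s2, s3, s4⟩ := H (((‖T‖⁻¹ : ℝ) : 𝕜) • T)
    (((cp _ _).add (cp _ _)).smul _) (by simp [norm_smul, n0.ne']) x x1 (by rw [nT]; nlinarith)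
  have b1 : ∀ s : ℝ, |s| ≤ t → ‖x0 + (s : 𝕜) • u‖ ≤ 1 := fun s hs => by
    obtain ⟨n, hn⟩ := h3 (x0 + (s : 𝕜) • u)
    rw [← hn]
    rcases eq_or_ne n j with rfl | hj
    · simpa [u1, hx0] using fb n x0
    · have : x0 + (s : 𝕜) • u = x - (x - x0) + (s : 𝕜) • u := by abel
      rw [this, map_add, map_sub]
      have c1 := fb n ((s : 𝕜) • u)
      rw [norm_smul, RCLike.norm_ofReal] at c1
      linarith [norm_add_le (f n x - f n (x - x0)) (f n ((s : 𝕜) • u)), x3 n hj, fb n (x - x0),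
        norm_sub_le (f n x) (f n (x - x0)), mul_le_mul_of_nonneg_right hs u0]
  have b2 : ∀ s : ℝ, |s| ≤ t → ∃ l : 𝕜, ‖l‖ = 1 ∧ S x0 + (s : 𝕜) • S u = l • S x' := fun s hs => by
    have c1 := S.unit_le_opNorm _ (b1 s hs)
    have c2 := S.unit_le_opNorm _ (b1 (-s) (by rwa [abs_neg]))
    have c3 := norm_add_le (S (x0 + (s : 𝕜) • u)) (S (x0 + ((-s : ℝ) : 𝕜) • u))
    have c4 : S (x0 + (s : 𝕜) • u) + S (x0 + ((-s : ℝ) : 𝕜) • u) = (2 : 𝕜) • S x0 := by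
      rw [map_add, map_add, map_smul, map_smul, RCLike.ofReal_neg]
      module
    rw [c4, norm_smul, s2, RCLike.norm_two] at c3
    obtain ⟨σ, -, l, l1, l2⟩ := hS (fun _ => x0 + (s : 𝕜) • u) (fun _ => b1 s hs)
      (tendsto_const_nhds_iff.2 (by linarith))
    exact ⟨l, l1, by simpa using l2⟩
  obtain ⟨l0, a0, c0⟩ := b2 0 (by simpa using t0.le)
  obtain ⟨l1, a1, c1⟩ := b2 t (abs_of_pos t0).le
  obtain ⟨l2, a2, c2⟩ := b2 (-t) (by rw [abs_neg, abs_of_pos t0])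
  rw [RCLike.ofReal_zero, zero_smul, add_zero] at c0
  have p1 : ‖S x'‖ = 1 := by rwa [c0, norm_smul, a0, one_mul] at s2
  have p2 : ‖l1 + l2‖ = 2 := by
    have : (l1 + l2) • S x' = (2 : 𝕜) • S x0 := by
      rw [add_smul, ← c1, ← c2, RCLike.ofReal_neg]
      module
    simpa [norm_smul, p1, s2] using congrArg norm this
  have p3 : l1 = l2 := by
    have := parallelogram_law_with_norm 𝕜 l1 l2
    rw [p2, a1, a2] at this
    exact sub_eq_zero.1 (norm_eq_zero.1 (by nlinarith))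
  have p4 : S u = 0 := by
    have : ((2 * t : ℝ) : 𝕜) • S u = 0 := by
      have := c1.trans (p3 ▸ c2.symm)
      push_cast at this ⊢
      linear_combination (norm := module) this
    exact (smul_eq_zero.1 this).resolve_left (by simpa using t0.ne')
  have p5 := (S - ((‖T‖⁻¹ : ℝ) : 𝕜) • T).le_opNorm u
  have p6 : T u = y1 := by simp [T, u1, u2]
  rw [ContinuousLinearMap.sub_apply, p4, zero_sub, norm_neg, nT, p6] at p5
  nlinarith [norm_nonneg y1, mul_le_mul_of_nonneg_right s3.le u0]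

end

theorem result :
    (∀ (X : Type u) (Y : Type v) [NormedAddCommGroup X] [NormedSpace ℝ X] [CompleteSpace X]
      [NormedAddCommGroup Y] [NormedSpace ℝ Y] [CompleteSpace Y],
      Nonempty (StrongDual ℝ X ≃ₗᵢ[ℝ] lp (fun _ : ℕ => ℝ) 1) →
      BPB (fun T : X →L[ℝ] Y => IsCompactOperator T) IsRSE → UC Y) ∧
    ∀ (X : Type u) (Y : Type v) [NormedAddCommGroup X] [NormedSpace ℂ X] [CompleteSpace X]
      [NormedAddCommGroup Y] [NormedSpace ℂ Y] [CompleteSpace Y],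
      Nonempty (StrongDual ℂ X ≃ₗᵢ[ℂ] lp (fun _ : ℕ => ℂ) 1) →
      BPB (fun T : X →L[ℂ] Y => IsCompactOperator T) IsRSE → CUC Y := by
  refine ⟨fun X Y _ _ _ _ _ _ ⟨e⟩ h ε hε => ?_, fun X Y _ _ _ _ _ _ ⟨e⟩ h ε hε => ?_⟩
  · obtain ⟨δ, d0, d1, H⟩ := main e h (half_pos hε)
    refine ⟨δ, d0, d1, fun y1 y2 h1 h2 h3 => ?_⟩
    have := H ((1 / 2 : ℝ) • (y1 + y2)) ((1 / 2 : ℝ) • (y1 - y2)) (fun w hw => by
      rcases abs_eq_abs.1 (hw.trans abs_one.symm) with rfl | rfl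
      · exact le_of_eq_of_le (congrArg norm (by module)) h1.le
      · exact le_of_eq_of_le (congrArg norm (by module)) h2.le) (by
      rw [norm_smul, Real.norm_of_nonneg (by norm_num)]; linarith)
    rw [norm_smul, Real.norm_of_nonneg (by norm_num)] at this
    linarith
  · obtain ⟨δ, d0, -, H⟩ := main e h hε
    exact ⟨δ, d0, fun y0 y1 h1 h2 => not_le.1 fun h3 => absurd (H y0 y1 h1 h3) h2.le.not_gt⟩

end Pool.Agent.Results.MP_88a444_an.Main
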